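import Pool.Agent.Lib.MP_baea4e_nt.Fin3

set_option autoImplicit false

open Finset

namespace Pool.Agent.Results.MP_baea4e_nt.SubfieldCodegree

/-- the canonical additive character `mu x = exp (2 pi i Tr x / p)` of `L` -/
noncomputable def mu (p : ℕ) [Fact p.Prime] (L : Type*) [Field L] [Algebra (ZMod p) L] (x : L) :
    ℂ :=
  Complex.exp (2 * Real.pi * Complex.I * ((Algebra.trace (ZMod p) L x).val : ℂ) / (p : ℂ))

/-- the Weil sum of `x ^ s - a x` -/
noncomputable def weil (p : ℕ) [Fact p.Prime] (L : Type*) [Field L] [Fintype L]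
    [Algebra (ZMod p) L] (s : ℕ) (a : L) : ℂ :=
  ∑ x : L, mu p L (x ^ s - a * x)

/-- the set of values of the Weil sum on nonzero arguments -/
def spectrum (p : ℕ) [Fact p.Prime] (L : Type*) [Field L] [Fintype L]
    [Algebra (ZMod p) L] (s : ℕ) : Set ℂ := {v : ℂ | ∃ a : L, a ≠ 0 ∧ weil p L s a = v}

lemma mu_eq (p : ℕ) [Fact p.Prime] (L : Type*) [Field L] [Fintype L] [DecidableEq L]
    [Algebra (ZMod p) L] (x : L) : mu p L x = Hel.psi p L x := by
  rw [Hel.psi_apply, ZMod.stdAddChar_apply, ZMod.toCircle_apply]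
  rfl

lemma weil_eq (p : ℕ) [Fact p.Prime] (L : Type*) [Field L] [Fintype L] [DecidableEq L]
    [Algebra (ZMod p) L] (s : ℕ) (a : L) : weil p L s a = Hel.Wc (Hel.psi p L) s a := by
  unfold weil Hel.Wc
  exact sum_congr rfl fun x _ => mu_eq p L _

theorem result (p : ℕ) [Fact p.Prime] (hp : 3 < p) (L : Type*) [Field L] [Fintype L]
    [Algebra (ZMod p) L] (k : ℕ) (hk : Module.finrank (ZMod p) L = 2 ^ k)
    (s : ℕ) (hs0 : 0 < s) (hs : Nat.Coprime s (Fintype.card L - 1))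
    (K : IntermediateField (ZMod p) L) (j : ℕ) (hK : ∀ x ∈ K, x ^ s = x ^ p ^ j)
    (hKL : Module.finrank K L ≤ 4) (h3 : (spectrum p L s).ncard = 3) :
    Module.finrank K L = 4 ∧ ∃ α β : ℕ, Odd α ∧ Even β ∧ α < β ∧
      weil p L s 1 = -((α : ℂ) * (p : ℂ) ^ 2 ^ (k - 1)) ∧
      spectrum p L s = {0, -((α : ℂ) * (p : ℂ) ^ 2 ^ (k - 1)), (β : ℂ) * (p : ℂ) ^ 2 ^ (k - 1)} := by
  classical
  have hpp : p.Prime := Fact.out
  have hp5 : 5 ≤ p := by
    rcases Nat.lt_or_ge p 5 with h | h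
    · have : p = 4 := by omega
      rw [this] at hpp
      exact absurd hpp (by norm_num)
    · exact h
  have hset : spectrum p L s = {v : ℂ | ∃ a : L, a ≠ 0 ∧ Hel.Wc (Hel.psi p L) s a = v} := by
    unfold spectrum
    simp only [weil_eq]
  rw [hset] at h3
  obtain ⟨hk3, α, β, htv, hP, hval⟩ := Hel.tv_of_three hp5 hs0.ne' hs hk h3
  have hw : ∀ a : L, weil p L s a = Hel.w p L s a := fun a => by
    rw [weil_eq, Hel.Wc_eq_w htv.hsp]
  obtain ⟨c1, c2, c3, _, _, _⟩ := htv.subfield hk hk3 hP K j hK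
  have h4 : Module.finrank K L = 4 := le_antisymm hKL c1
  have ho := c2 h4
  have hne : ¬ Even α := Nat.not_even_iff_odd.mpr ho
  refine ⟨h4, α, β, ho, ?_, htv.hαβ, ?_, by rw [hset]; exact hval⟩
  · obtain ⟨y, hy⟩ := htv.hpar
    obtain ⟨z, hz⟩ := ho
    exact ⟨y - z, by omega⟩
  · rw [if_neg hne] at c3
    rw [hw, c3]; push_cast; ring

end Pool.Agent.Results.MP_baea4e_nt.SubfieldCodegree
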