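import Pool.Agent.Lib.MP_baea4e_nt.Fin3

set_option autoImplicit false

open Finset

namespace Pool.Agent.Results.MP_baea4e_nt.SubfieldSpectrum

/-- the canonical additive character `mu x = exp (2 pi i Tr x / p)` of `L` -/
noncomputable def mu (p : ℕ) [Fact p.Prime] (L : Type*) [Field L] [Algebra (ZMod p) L] (x : L) :
    ℂ :=
  Complex.exp (2 * Real.pi * Complex.I * ((Algebra.trace (ZMod p) L x).val : ℂ) / (p : ℂ))

/-- the Weil sum of `x ^ s - a x` -/
noncomputable def weil (p : ℕ) [Fact p.Prime] (L : Type*) [Field L] [Fintype L]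
    [Algebra (ZMod p) L] (s : ℕ) (a : L) : ℂ :=
  ∑ x : L, mu p L (x ^ s - a * x)

/-- the set of values of the Weil sum on nonzero arguments -/
def spectrum (p : ℕ) [Fact p.Prime] (L : Type*) [Field L] [Fintype L]
    [Algebra (ZMod p) L] (s : ℕ) : Set ℂ := {v : ℂ | ∃ a : L, a ≠ 0 ∧ weil p L s a = v}

lemma mu_eq (p : ℕ) [Fact p.Prime] (L : Type*) [Field L] [Fintype L] [DecidableEq L]
    [Algebra (ZMod p) L] (x : L) : mu p L x = Hel.psi p L x := by
  rw [Hel.psi_apply, ZMod.stdAddChar_apply, ZMod.toCircle_apply]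
  rfl

lemma weil_eq (p : ℕ) [Fact p.Prime] (L : Type*) [Field L] [Fintype L] [DecidableEq L]
    [Algebra (ZMod p) L] (s : ℕ) (a : L) : weil p L s a = Hel.Wc (Hel.psi p L) s a := by
  unfold weil Hel.Wc
  exact sum_congr rfl fun x _ => mu_eq p L _

theorem result (p : ℕ) [Fact p.Prime] (hp : 3 < p) (L : Type*) [Field L] [Fintype L]
    [Algebra (ZMod p) L] (k : ℕ) (hk : Module.finrank (ZMod p) L = 2 ^ k)
    (s : ℕ) (hs0 : 0 < s) (hs : Nat.Coprime s (Fintype.card L - 1))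
    (h3 : (spectrum p L s).ncard = 3) :
    ∃ U V : ℤ, Even U ∧ U ≠ 0 ∧ Odd V ∧ spectrum p L s = {0, (U : ℂ), (V : ℂ)} ∧
      ∀ (K : IntermediateField (ZMod p) L) (j : ℕ), (∀ x ∈ K, x ^ s = x ^ p ^ j) →
        weil p L s 1 = V ∧
        (∀ c ∈ K, c ≠ 1 →
          (weil p L s c = U ∧ ∃ z : L, z ^ s + (1 - z) ^ s = c ^ s) ∨
          (weil p L s c = 0 ∧ ∀ z : L, z ^ s + (1 - z) ^ s ≠ c ^ s)) ∧
        ((∀ M : IntermediateField (ZMod p) L, K < M → ∀ i : ℕ, ∃ x ∈ M, x ^ s ≠ x ^ p ^ i) →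
          ∃ c ∈ K, c ≠ 0 ∧ c ≠ 1 ∧ weil p L s c = U) := by
  classical
  have hpp : p.Prime := Fact.out
  have hp5 : 5 ≤ p := by
    rcases Nat.lt_or_ge p 5 with h | h
    · have : p = 4 := by omega
      rw [this] at hpp
      exact absurd hpp (by norm_num)
    · exact h
  have hset : spectrum p L s = {v : ℂ | ∃ a : L, a ≠ 0 ∧ Hel.Wc (Hel.psi p L) s a = v} := by
    unfold spectrum
    simp only [weil_eq]
  rw [hset] at h3
  obtain ⟨hk3, α, β, htv, hP, hval⟩ := Hel.tv_of_three hp5 hs0.ne' hs hk h3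
  have hw : ∀ a : L, weil p L s a = Hel.w p L s a := fun a => by
    rw [weil_eq, Hel.Wc_eq_w htv.hsp]
  have hQo : Odd ((p ^ 2 ^ (k - 1) : ℕ) : ℤ) := by exact_mod_cast htv.Q_odd
  have hQ0 : ((p ^ 2 ^ (k - 1) : ℕ) : ℤ) ≠ 0 := by
    have := htv.Q_pos
    exact_mod_cast this.ne'
  have hα0 : (α : ℤ) ≠ 0 := by
    have := htv.hα1
    have : α ≠ 0 := by omega
    exact_mod_cast this
  have hβ0 : (β : ℤ) ≠ 0 := by
    have := htv.hαβ
    have : β ≠ 0 := by omega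
    exact_mod_cast this
  -- the common part
  have key : ∀ U V : ℤ, U ≠ 0 →
      (∀ (K : IntermediateField (ZMod p) L) (j : ℕ), (∀ x ∈ K, x ^ s = x ^ p ^ j) →
        Hel.w p L s 1 = V ∧ ∀ c ∈ K, c ≠ 1 → Hel.w p L s c = 0 ∨ Hel.w p L s c = U) →
      ∀ (K : IntermediateField (ZMod p) L) (j : ℕ), (∀ x ∈ K, x ^ s = x ^ p ^ j) →
        weil p L s 1 = V ∧
        (∀ c ∈ K, c ≠ 1 →
          (weil p L s c = U ∧ ∃ z : L, z ^ s + (1 - z) ^ s = c ^ s) ∨
          (weil p L s c = 0 ∧ ∀ z : L, z ^ s + (1 - z) ^ s ≠ c ^ s)) ∧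
        ((∀ M : IntermediateField (ZMod p) L, K < M → ∀ i : ℕ, ∃ x ∈ M, x ^ s ≠ x ^ p ^ i) →
          ∃ c ∈ K, c ≠ 0 ∧ c ≠ 1 ∧ weil p L s c = U) := by
    intro U V hU hall K j hK
    obtain ⟨_, _, _, _, c5, c6⟩ := htv.subfield hk hk3 hP K j hK
    obtain ⟨h1, h2⟩ := hall K j hK
    refine ⟨by rw [hw, h1], ?_, ?_⟩
    · intro c hc hc1
      rcases h2 c hc hc1 with h | h
      · right
        refine ⟨by rw [hw, h]; simp, ?_⟩
        intro z hz
        exact (c5 c hc hc1).mpr ⟨z, hz⟩ h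
      · left
        exact ⟨by rw [hw, h], (c5 c hc hc1).mp (by rw [h]; exact hU)⟩
    · intro hmax
      obtain ⟨c, hc, hc0, hc1, hcw⟩ := c6 hmax
      refine ⟨c, hc, hc0, hc1, ?_⟩
      rw [hw, (h2 c hc hc1).resolve_left hcw]
  rcases Nat.even_or_odd α with he | ho
  · have hβo : Odd β := by
      obtain ⟨y, hy⟩ := htv.hpar
      obtain ⟨z, hz⟩ := he
      exact ⟨y - z, by omega⟩
    refine ⟨-(α * (p ^ 2 ^ (k - 1) : ℕ) : ℤ), (β * (p ^ 2 ^ (k - 1) : ℕ) : ℤ), ?_, ?_, ?_, ?_, ?_⟩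
    · rw [even_neg]
      have : Even (α : ℤ) := by exact_mod_cast he
      exact this.mul_right _
    · exact neg_ne_zero.mpr (mul_ne_zero hα0 hQ0)
    · have : Odd (β : ℤ) := by exact_mod_cast hβo
      exact this.mul hQo
    · rw [hset, hval]; push_cast; rfl
    · refine key _ _ (neg_ne_zero.mpr (mul_ne_zero hα0 hQ0)) ?_
      intro K j hK
      obtain ⟨_, _, c3, c4, _, _⟩ := htv.subfield hk hk3 hP K j hK
      rw [if_pos he] at c3
      refine ⟨c3, ?_⟩
      intro c hc hc1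
      have := c4 c hc hc1
      rw [if_pos he] at this
      exact this
  · have hβe : Even β := by
      obtain ⟨y, hy⟩ := htv.hpar
      obtain ⟨z, hz⟩ := ho
      exact ⟨y - z, by omega⟩
    have hne : ¬ Even α := Nat.not_even_iff_odd.mpr ho
    refine ⟨(β * (p ^ 2 ^ (k - 1) : ℕ) : ℤ), -(α * (p ^ 2 ^ (k - 1) : ℕ) : ℤ), ?_, ?_, ?_, ?_, ?_⟩
    · have : Even (β : ℤ) := by exact_mod_cast hβe
      exact this.mul_right _
    · exact mul_ne_zero hβ0 hQ0
    · rw [odd_neg]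
      have : Odd (α : ℤ) := by exact_mod_cast ho
      exact this.mul hQo
    · rw [hset, hval]; push_cast
      exact congrArg (insert (0 : ℂ)) (Set.pair_comm _ _)
    · refine key _ _ (mul_ne_zero hβ0 hQ0) ?_
      intro K j hK
      obtain ⟨_, _, c3, c4, _, _⟩ := htv.subfield hk hk3 hP K j hK
      rw [if_neg hne] at c3
      refine ⟨c3, ?_⟩
      intro c hc hc1
      have := c4 c hc hc1
      rw [if_neg hne] at this
      exact this

end Pool.Agent.Results.MP_baea4e_nt.SubfieldSpectrum
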