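import Pool.Agent.Lib.MP_baea4e_nt.Final

set_option autoImplicit false

open Finset

namespace Pool.Agent.Results.MP_baea4e_nt.ThreeValuedStructure

/-- the canonical additive character `mu x = exp (2 pi i Tr x / p)` of `L` -/
noncomputable def mu (p : ℕ) [Fact p.Prime] (L : Type*) [Field L] [Algebra (ZMod p) L] (x : L) :
    ℂ :=
  Complex.exp (2 * Real.pi * Complex.I * ((Algebra.trace (ZMod p) L x).val : ℂ) / (p : ℂ))

/-- the Weil sum of `x ^ s - a x` -/
noncomputable def weil (p : ℕ) [Fact p.Prime] (L : Type*) [Field L] [Fintype L]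
    [Algebra (ZMod p) L] (s : ℕ) (a : L) : ℂ :=
  ∑ x : L, mu p L (x ^ s - a * x)

/-- the set of values of the Weil sum on nonzero arguments -/
def spectrum (p : ℕ) [Fact p.Prime] (L : Type*) [Field L] [Fintype L]
    [Algebra (ZMod p) L] (s : ℕ) : Set ℂ := {v : ℂ | ∃ a : L, a ≠ 0 ∧ weil p L s a = v}

lemma mu_eq (p : ℕ) [Fact p.Prime] (L : Type*) [Field L] [Fintype L] [DecidableEq L]
    [Algebra (ZMod p) L] (x : L) : mu p L x = Hel.psi p L x := by
  rw [Hel.psi_apply, ZMod.stdAddChar_apply, ZMod.toCircle_apply]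
  rfl

lemma weil_eq (p : ℕ) [Fact p.Prime] (L : Type*) [Field L] [Fintype L] [DecidableEq L]
    [Algebra (ZMod p) L] (s : ℕ) (a : L) : weil p L s a = Hel.Wc (Hel.psi p L) s a := by
  unfold weil Hel.Wc
  exact sum_congr rfl fun x _ => mu_eq p L _

theorem result (p : ℕ) [Fact p.Prime] (hp : 3 < p) (L : Type*) [Field L] [Fintype L]
    [Algebra (ZMod p) L] (k : ℕ) (hk : Module.finrank (ZMod p) L = 2 ^ k)
    (s : ℕ) (hs0 : 0 < s) (hs : Nat.Coprime s (Fintype.card L - 1))
    (h3 : (spectrum p L s).ncard = 3) :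
    3 ≤ k ∧ ∃ e α β : ℕ, 1 ≤ e ∧ 4 * e < 2 ^ k ∧ 1 ≤ α ∧ α < β ∧ Nat.Coprime α β ∧
      α + β = p ^ e ∧
      α ∣ p ^ (2 ^ (k - 1) - e) - 1 ∧ β ∣ p ^ (2 ^ (k - 1) - e) + 1 ∧
      α * β * (p ^ e - 1) < p ^ 2 ^ (k - 1) ∧
      spectrum p L s = {0, -((α : ℂ) * (p : ℂ) ^ 2 ^ (k - 1)), (β : ℂ) * (p : ℂ) ^ 2 ^ (k - 1)} ∧
      Nat.card {z : L // z ^ s + (1 - z) ^ s = 1} = (β - α) * p ^ 2 ^ (k - 1) + α * β ∧
      ∀ c : L, c ≠ 1 → Nat.card {z : L // z ^ s + (1 - z) ^ s = c} = 0 ∨
        Nat.card {z : L // z ^ s + (1 - z) ^ s = c} = α * β := by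
  classical
  have hpp : p.Prime := Fact.out
  have hp5 : 5 ≤ p := by
    rcases Nat.lt_or_ge p 5 with h | h
    · have : p = 4 := by omega
      rw [this] at hpp
      exact absurd hpp (by norm_num)
    · exact h
  have hset : spectrum p L s = {v : ℂ | ∃ a : L, a ≠ 0 ∧ Hel.Wc (Hel.psi p L) s a = v} := by
    unfold spectrum
    simp only [weil_eq]
  rw [hset] at h3
  obtain ⟨hk1, e, α, β, ⟨c1, c2, c3, c4, c5, c6, c7, c8, c9, c10, c11⟩, hval⟩ :=
    Hel.structure_thm hp5 hs0.ne' hs hk h3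
  have hk2 : 2 ^ k = 2 * 2 ^ (k - 1) := by rw [← pow_succ']; congr 1; omega
  have hk3 : 3 ≤ k := by
    by_contra hcon
    have hle : k - 1 ≤ 1 := by omega
    have h2 : 2 ^ (k - 1) ≤ 2 ^ 1 := Nat.pow_le_pow_right (by norm_num) hle
    omega
  have h2L : (2 : L) ≠ 0 := Hel.two_ne p (by omega) L
  have hodd : Odd s := Hel.s_odd h2L hs
  -- the fibres
  have hfib : ∀ (c t : L), t ^ s * c = 1 →
      Nat.card {z : L // z ^ s + (1 - z) ^ s = c} = Hel.del L s t := by
    intro c t ht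
    rw [Nat.card_eq_fintype_card, Fintype.card_subtype]
    unfold Hel.del
    congr 1
    ext z
    simp only [mem_filter, mem_univ, true_and]
    have ht0 : t ^ s ≠ 0 := left_ne_zero_of_mul_eq_one ht
    constructor
    · intro h
      rw [add_comm ((1 - z) ^ s), h, ht]
    · intro h
      apply mul_left_cancel₀ ht0
      rw [ht, add_comm (z ^ s)]; exact h
  refine ⟨hk3, e, α, β, c1, by omega, c4, c5, c6, c3, c7, c8, c9, by rw [hset]; exact hval,
    ?_, ?_⟩
  · rw [hfib 1 1 (by simp)]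
    zify [c5.le]
    exact c11
  · intro c hc
    by_cases hc0 : c = 0
    · left
      rw [hc0, Nat.card_eq_fintype_card, Fintype.card_subtype, card_eq_zero,
        filter_eq_empty_iff]
      intro z _ h
      have h4 : z ^ s = (z - 1) ^ s := by
        have : (z - 1) ^ s = -(1 - z) ^ s := by rw [← hodd.neg_pow]; congr 1; ring
        rw [this]; exact eq_neg_of_add_eq_zero_left h
      have h5 := (Hel.pow_bijective hs0.ne' hs).1 h4
      exact one_ne_zero (α := L) (by linear_combination h5)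
    · obtain ⟨t, ht⟩ := (Hel.pow_bijective hs0.ne' hs).2 c⁻¹
      simp only at ht
      have htc : t ^ s * c = 1 := by rw [ht, inv_mul_cancel₀ hc0]
      rw [hfib c t htc]
      apply c10
      · rintro rfl
        rw [zero_pow hs0.ne', zero_mul] at htc
        exact zero_ne_one htc
      · rintro rfl
        apply hc
        simpa using htc

end Pool.Agent.Results.MP_baea4e_nt.ThreeValuedStructure
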