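import Pool.Agent.Lib.MP_baea4e_nt.Final
import Pool.Agent.Lib.MP_baea4e_nt.Ratio

set_option autoImplicit false

open Finset

namespace Pool.Agent.Results.MP_baea4e_nt.ValueRatio

/-- the canonical additive character `mu x = exp (2 pi i Tr x / p)` of `L` -/
noncomputable def mu (p : ℕ) [Fact p.Prime] (L : Type*) [Field L] [Algebra (ZMod p) L] (x : L) :
    ℂ :=
  Complex.exp (2 * Real.pi * Complex.I * ((Algebra.trace (ZMod p) L x).val : ℂ) / (p : ℂ))

/-- the Weil sum of `x ^ s - a x` -/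
noncomputable def weil (p : ℕ) [Fact p.Prime] (L : Type*) [Field L] [Fintype L]
    [Algebra (ZMod p) L] (s : ℕ) (a : L) : ℂ :=
  ∑ x : L, mu p L (x ^ s - a * x)

/-- the set of values of the Weil sum on nonzero arguments -/
def spectrum (p : ℕ) [Fact p.Prime] (L : Type*) [Field L] [Fintype L]
    [Algebra (ZMod p) L] (s : ℕ) : Set ℂ := {v : ℂ | ∃ a : L, a ≠ 0 ∧ weil p L s a = v}

lemma mu_eq (p : ℕ) [Fact p.Prime] (L : Type*) [Field L] [Fintype L] [DecidableEq L]
    [Algebra (ZMod p) L] (x : L) : mu p L x = Hel.psi p L x := by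
  rw [Hel.psi_apply, ZMod.stdAddChar_apply, ZMod.toCircle_apply]
  rfl

lemma weil_eq (p : ℕ) [Fact p.Prime] (L : Type*) [Field L] [Fintype L] [DecidableEq L]
    [Algebra (ZMod p) L] (s : ℕ) (a : L) : weil p L s a = Hel.Wc (Hel.psi p L) s a := by
  unfold weil Hel.Wc
  exact sum_congr rfl fun x _ => mu_eq p L _

theorem result (p : ℕ) [Fact p.Prime] (hp : 3 < p) (L : Type*) [Field L] [Fintype L]
    [Algebra (ZMod p) L] (k : ℕ) (hk : Module.finrank (ZMod p) L = 2 ^ k)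
    (s : ℕ) (hs0 : 0 < s) (hs : Nat.Coprime s (Fintype.card L - 1))
    (h3 : (spectrum p L s).ncard = 3) :
    ∃ α β : ℕ, 2 ≤ α ∧ α < β ∧ (β - α) ^ 2 < α * β ∧
      spectrum p L s =
        {0, -((α : ℂ) * (p : ℂ) ^ 2 ^ (k - 1)), (β : ℂ) * (p : ℂ) ^ 2 ^ (k - 1)} := by
  classical
  have hpp : p.Prime := Fact.out
  have hp5 : 5 ≤ p := by
    rcases Nat.lt_or_ge p 5 with h | h
    · have : p = 4 := by omega
      rw [this] at hpp
      exact absurd hpp (by norm_num)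
    · exact h
  have hset : spectrum p L s = {v : ℂ | ∃ a : L, a ≠ 0 ∧ Hel.Wc (Hel.psi p L) s a = v} := by
    unfold spectrum
    simp only [weil_eq]
  rw [hset] at h3
  obtain ⟨hk1, e, α, β, ⟨c1, c2, c3, c4, c5, c6, c7, c8, c9, c10, c11⟩, hval⟩ :=
    Hel.structure_thm hp5 hs0.ne' hs hk h3
  have hk2 : 2 ^ k = 2 ^ (k - 1) * 2 := by rw [← pow_succ]; congr 1; omega
  have h2L : (2 : L) ≠ 0 := Hel.two_ne p (by omega) L
  have hodd : Odd s := Hel.s_odd h2L hs
  have hcard : Fintype.card L = (p ^ 2 ^ (k - 1)) ^ 2 := by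
    have h := Module.card_eq_pow_finrank (K := ZMod p) (V := L)
    rw [ZMod.card, hk, hk2, pow_mul] at h
    exact h
  have hPodd : Odd (α + β) := by
    rw [c3]
    exact (hpp.odd_of_ne_two (by omega)).pow
  have hpe : 5 ≤ p ^ e := by
    calc 5 ≤ p := hp5
      _ = p ^ 1 := (pow_one p).symm
      _ ≤ p ^ e := Nat.pow_le_pow_right (by omega) c1
  have hβQ : β < p ^ 2 ^ (k - 1) := by
    refine lt_of_le_of_lt ?_ c9
    have h1 : β * 1 ≤ β * (α * (p ^ e - 1)) :=
      Nat.mul_le_mul_left _ (Nat.mul_pos c4 (by omega))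
    calc β = β * 1 := (mul_one β).symm
      _ ≤ β * (α * (p ^ e - 1)) := h1
      _ = α * β * (p ^ e - 1) := by ring
  have hvals : ∀ t : L, Hel.Wc (Hel.psi p L) s t = 0 ∨
      Hel.Wc (Hel.psi p L) s t = -((α : ℂ) * (p ^ 2 ^ (k - 1) : ℕ)) ∨
      Hel.Wc (Hel.psi p L) s t = (β : ℂ) * (p ^ 2 ^ (k - 1) : ℕ) := by
    intro t
    by_cases ht : t = 0
    · left
      rw [ht]
      exact Hel.Wc_zero (Hel.psi_prim (p := p) (L := L)) hs0.ne' hs
    · have h1 : Hel.Wc (Hel.psi p L) s t ∈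
          {v : ℂ | ∃ a : L, a ≠ 0 ∧ Hel.Wc (Hel.psi p L) s a = v} := ⟨t, ht, rfl⟩
      rw [hval] at h1
      push_cast
      simpa using h1
  have hratio := Hel.ratio_bound (Hel.psi_prim (p := p) (L := L)) hs0.ne' hs hodd c4 c5 hPodd hβQ hcard
    (by rw [c11]; push_cast; ring) c10 hvals
  have hα2 : 2 ≤ α := by
    by_contra hcon
    have hα1 : α = 1 := by omega
    rw [hα1] at hratio c3
    have hβ4 : (4 : ℤ) ≤ β := by
      have : 4 ≤ β := by omega
      exact_mod_cast this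
    push_cast at hratio
    nlinarith
  refine ⟨α, β, hα2, c5, ?_, by rw [hset]; exact hval⟩
  zify [c5.le]
  exact hratio

end Pool.Agent.Results.MP_baea4e_nt.ValueRatio
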